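import Pool.Agent.Helper14.WK.StA

/-! # Project WK, module KP5: translation relation for the potentials -/

set_option autoImplicit false

open Filter Topology

namespace Pool.Agent.Helper66.WK

open Pool.Agent.Helper14.CV (G0 Homog EqC act)
open Pool.Agent.Helper28.WK (pr cp WT)
open Pool.Agent.Helper14.WK

/-- the point `y i` -/
private noncomputable def wy (y : ℝ) : ℂ := ((0 : ℝ) : ℂ) + y * Complex.I

private theorem wy_re (y : ℝ) : (wy y).re = 0 := by simp [wy]

private theorem wy_im (y : ℝ) : (wy y).im = y := by simp [wy]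

private theorem lin_re (c d : ℤ) (y : ℝ) : ((c : ℂ) * wy y + d).re = d := by
  rw [Complex.add_re, Complex.mul_re, wy_re, wy_im, Complex.intCast_re, Complex.intCast_im,
    Complex.intCast_re]
  ring

private theorem lin_im (c d : ℤ) (y : ℝ) : ((c : ℂ) * wy y + d).im = c * y := by
  rw [Complex.add_im, Complex.mul_im, wy_re, wy_im, Complex.intCast_re, Complex.intCast_im,
    Complex.intCast_im]
  ring

private theorem lin_ne {c d : ℤ} {y : ℝ} (hy : 0 < y) (h : c ≠ 0 ∨ d ≠ 0) :
    (c : ℂ) * wy y + d ≠ 0 := by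
  intro h0
  have h1 := congrArg Complex.re h0
  have h2 := congrArg Complex.im h0
  rw [lin_re, Complex.zero_re] at h1
  rw [lin_im, Complex.zero_im] at h2
  have h3 : (c : ℝ) = 0 := by
    rcases mul_eq_zero.1 h2 with h | h
    · exact h
    · exact absurd h hy.ne'
  rcases h with h | h
  · exact h (by exact_mod_cast h3)
  · exact h (by exact_mod_cast h1)

private theorem ne_of_det {a b c d : ℤ} (h : 0 < a * d - b * c) :
    (a ≠ 0 ∨ b ≠ 0) ∧ (c ≠ 0 ∨ d ≠ 0) := by
  constructor
  · by_contra hc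
    push Not at hc
    rw [hc.1, hc.2] at h
    simp at h
  · by_contra hc
    push Not at hc
    rw [hc.1, hc.2] at h
    simp at h

private theorem frac_im {a b c d : ℤ} (h : 0 < a * d - b * c) {y : ℝ} (hy : 0 < y) :
    0 < (((a : ℂ) * wy y + b) / ((c : ℂ) * wy y + d)).im := by
  have h1 := lin_ne hy (ne_of_det h).2
  have h2 : 0 < Complex.normSq ((c : ℂ) * wy y + d) := Complex.normSq_pos.2 h1
  rw [Complex.div_im, lin_re, lin_im, lin_re, lin_im, ← sub_div]
  refine div_pos ?_ h2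
  have h3 : (0 : ℝ) < a * d - b * c := by exact_mod_cast h
  have h4 : (a : ℝ) * y * d - b * (c * y) = (a * d - b * c) * y := by ring
  rw [h4]
  exact mul_pos h3 hy

/-- a matrix with a given first column -/
private theorem exists_col (p q : ℤ) (h : p ≠ 0 ∨ q ≠ 0) : ∃ b d : ℤ, 0 < p * d - b * q := by
  refine ⟨-q, p, ?_⟩
  rcases h with h | h
  · have : 0 < p ^ 2 := by positivity
    nlinarith [sq_nonneg q]
  · have : 0 < q ^ 2 := by positivity
    nlinarith [sq_nonneg p]

private theorem cst (D : ℂ → ℂ) (h : ∀ z : ℂ, 0 < z.im → HasDerivAt D 0 z) :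
    ∃ k : ℂ, ∀ z : ℂ, 0 < z.im → D z = k := by
  have hs : IsOpen {z : ℂ | 0 < z.im} := isOpen_lt continuous_const Complex.continuous_im
  have hp : IsPreconnected {z : ℂ | 0 < z.im} := (convex_halfSpace_im_gt 0).isPreconnected
  obtain ⟨k, hk⟩ := hs.exists_is_const_of_deriv_eq_zero hp
    (fun z hz => (h z hz).differentiableAt.differentiableWithinAt) (fun z hz => (h z hz).deriv)
  exact ⟨k, fun z hz => hk z hz⟩

/-- decay of the primitives along vertical lines -/
private theorem EK_lim (hb : SKA1b) {N : ℕ} [NeZero N] {k : ℤ} (f : CuspForm (G0 N) k) (j : ℕ)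
    (x : ℝ) : Tendsto (fun y : ℝ => EK f j ((x : ℂ) + y * Complex.I)) atTop (𝓝 0) := by
  obtain ⟨C, hC⟩ := hb N inferInstance k f j
  set a : ℝ := 1 + |x| with ha
  have hlim : Tendsto (fun y : ℝ => |C| * Real.exp a * ((a + y) ^ j * Real.exp (-(a + y)))) atTop
      (𝓝 (|C| * Real.exp a * 0)) :=
    ((Real.tendsto_pow_mul_exp_neg_atTop_nhds_zero j).comp
      (tendsto_atTop_add_const_left _ a tendsto_id)).const_mul _
  rw [mul_zero] at hlim
  refine squeeze_zero_norm' ?_ hlim
  filter_upwards [eventually_ge_atTop 1] with y hy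
  have him : ((x : ℂ) + y * Complex.I).im = y := by simp
  have h1 := hC ((x : ℂ) + y * Complex.I) (by rw [him]; exact hy)
  rw [him] at h1
  have hn : ‖(x : ℂ) + y * Complex.I‖ ≤ |x| + y := by
    refine (norm_add_le _ _).trans ?_
    rw [Complex.norm_real, norm_mul, Complex.norm_real, Complex.norm_I, mul_one,
      Real.norm_eq_abs, Real.norm_eq_abs, abs_of_nonneg (by linarith : (0 : ℝ) ≤ y)]
  have h2 : (1 + ‖(x : ℂ) + y * Complex.I‖) ^ j ≤ (a + y) ^ j :=
    pow_le_pow_left₀ (by positivity) (by rw [ha]; linarith) j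
  have h3 : Real.exp (-2 * Real.pi * y) ≤ Real.exp (-y) := by
    refine Real.exp_le_exp.2 ?_
    nlinarith [Real.pi_gt_three]
  have h4 : Real.exp (-y) = Real.exp a * Real.exp (-(a + y)) := by
    rw [← Real.exp_add]; congr 1; ring
  have hay : 0 ≤ (a + y) ^ j := pow_nonneg (by rw [ha]; positivity) j
  calc ‖EK f j ((x : ℂ) + y * Complex.I)‖
      ≤ C * (1 + ‖(x : ℂ) + y * Complex.I‖) ^ j * Real.exp (-2 * Real.pi * y) := h1
    _ ≤ |C| * (1 + ‖(x : ℂ) + y * Complex.I‖) ^ j * Real.exp (-2 * Real.pi * y) := by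
        refine mul_le_mul_of_nonneg_right (mul_le_mul_of_nonneg_right (le_abs_self C) ?_)
          (Real.exp_pos _).le
        positivity
    _ ≤ |C| * (a + y) ^ j * Real.exp (-y) := by
        refine mul_le_mul (mul_le_mul_of_nonneg_left h2 (abs_nonneg C)) h3 (Real.exp_pos _).le ?_
        exact mul_nonneg (abs_nonneg C) hay
    _ = |C| * Real.exp a * ((a + y) ^ j * Real.exp (-(a + y))) := by
        rw [h4]; ring

private theorem prE_lim {N : ℕ} {k : ℤ} (f : CuspForm (G0 N) k) (P : Polynomial ℤ) (B : ℕ)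
    (hP : P.natDegree ≤ B) (g : ℝ → ℂ) (J : ℕ → ℂ)
    (h : ∀ n : ℕ, n ≤ B → Tendsto (fun y : ℝ => EK f n (g y)) atTop (𝓝 (J n))) :
    Tendsto (fun y : ℝ => prE f P (g y)) atTop (𝓝 (P.sum fun n c => (c : ℂ) * J n)) := by
  simp only [prE, Polynomial.sum_def]
  refine tendsto_finsetSum _ fun n hn => ?_
  exact (h n ((Polynomial.le_natDegree_of_mem_supp n hn).trans hP)).const_mul _

private theorem im_shift (z : ℂ) (hz : 0 < z.im) (i r : ℕ) : 0 < (z + (i : ℂ) / (r : ℂ)).im := by
  have e : (i : ℂ) / (r : ℂ) = (((i : ℝ) / (r : ℝ) : ℝ) : ℂ) := by push_cast; rfl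
  rw [e, Complex.add_im, Complex.ofReal_im, add_zero]
  exact hz

theorem hKP5 (he : SKE) (hb : SKA1b) (_hp : SKP1) : SKP5 := by
  intro N hN A f I r hr hI hf j hj p q hpq
  have hrC : (r : ℂ) ≠ 0 := by exact_mod_cast hr.ne'
  set P : ℕ → Polynomial ℤ := fun i =>
    (Polynomial.C (r : ℤ) * Polynomial.X - Polynomial.C (i : ℤ)) ^ j with hP
  have hdeg : ∀ i, (P i).natDegree ≤ 2 * A := by
    intro i
    refine (Polynomial.natDegree_pow_le).trans ?_
    have h1 : (Polynomial.C (r : ℤ) * Polynomial.X - Polynomial.C (i : ℤ)).natDegree ≤ 1 := by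
      rw [Polynomial.natDegree_sub_C]
      exact (Polynomial.natDegree_C_mul_le _ _).trans Polynomial.natDegree_X_le
    calc j * _ ≤ j * 1 := Nat.mul_le_mul_left _ h1
      _ ≤ 2 * A := by omega
  -- the sum of the primitives is constant
  obtain ⟨K, hK⟩ := cst (fun z => ∑ i ∈ Finset.range r, prE f (P i) (z + (i : ℂ) / (r : ℂ))) (by
    intro z hz
    have h1 : HasDerivAt (fun z => ∑ i ∈ Finset.range r, prE f (P i) (z + (i : ℂ) / (r : ℂ)))
        (∑ i ∈ Finset.range r, fzK f (z + (i : ℂ) / (r : ℂ)) *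
          (Polynomial.aeval (z + (i : ℂ) / (r : ℂ)) (P i))) z := by
      refine HasDerivAt.fun_sum fun i _ => ?_
      exact ((he N hN _ f (z + (i : ℂ) / (r : ℂ)) (im_shift z hz i r)).2 (P i)).comp_add_const _ _
    refine h1.congr_deriv ?_
    have h2 : ∀ i ∈ Finset.range r, fzK f (z + (i : ℂ) / (r : ℂ)) *
        (Polynomial.aeval (z + (i : ℂ) / (r : ℂ)) (P i)) =
        fzK f (z + (i : ℂ) / (r : ℂ)) * ((r : ℂ) * z) ^ j := by
      intro i _
      congr 1
      simp only [hP, map_pow, map_sub, map_mul, Polynomial.aeval_X, Polynomial.aeval_C]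
      congr 1
      simp only [algebraMap_int_eq, eq_intCast, Int.cast_natCast]
      field_simp
      ring
    rw [Finset.sum_congr rfl h2, ← Finset.sum_mul, hf z hz, zero_mul])
  -- the constant is zero
  have hK0 : K = 0 := by
    have h1 : Tendsto (fun y : ℝ => ∑ i ∈ Finset.range r,
        prE f (P i) (wy y + (i : ℂ) / (r : ℂ))) atTop (𝓝 (∑ i ∈ Finset.range r, 0)) := by
      refine tendsto_finsetSum _ fun i _ => ?_
      have h2 := prE_lim f (P i) (2 * A) (hdeg i) (fun y => wy y + (i : ℂ) / (r : ℂ))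
        (fun _ => 0) (fun n _ => by
          have h3 := EK_lim hb f n ((i : ℝ) / (r : ℝ))
          refine h3.congr fun y => ?_
          congr 1
          simp only [wy]
          push_cast
          ring)
      simpa [Polynomial.sum_def] using h2
    rw [Finset.sum_const_zero] at h1
    refine (tendsto_nhds_unique (h1.congr' ?_) tendsto_const_nhds).symm
    filter_upwards [eventually_gt_atTop 0] with y hy
    exact hK (wy y) (by rw [wy_im]; exact hy)
  obtain ⟨b, d, hdet⟩ := exists_col p q hpq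
  have d1 : ∀ i : ℕ, 0 < ((r : ℤ) * p + (i : ℤ) * q) * ((r : ℤ) * d) -
      ((r : ℤ) * b + (i : ℤ) * d) * ((r : ℤ) * q) := by
    intro i
    have : ((r : ℤ) * p + (i : ℤ) * q) * ((r : ℤ) * d) -
        ((r : ℤ) * b + (i : ℤ) * d) * ((r : ℤ) * q) = (r : ℤ) ^ 2 * (p * d - b * q) := by ring
    rw [this]
    have hr' : (0 : ℤ) < r := by exact_mod_cast hr
    exact mul_pos (pow_pos hr' 2) hdet
  have t1 : Tendsto (fun y : ℝ => ∑ i ∈ Finset.range r, prE f (P i)
      (((((r : ℤ) * p + (i : ℤ) * q : ℤ) : ℂ) * wy y + (((r : ℤ) * b + (i : ℤ) * d : ℤ) : ℂ)) /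
        ((((r : ℤ) * q : ℤ) : ℂ) * wy y + (((r : ℤ) * d : ℤ) : ℂ)))) atTop
      (𝓝 (∑ i ∈ Finset.range r, pr I (P i) (r * p + i * q) (r * q))) := by
    refine tendsto_finsetSum _ fun i _ => ?_
    have h2 := prE_lim f (P i) (2 * A) (hdeg i) (fun y =>
      ((((r : ℤ) * p + (i : ℤ) * q : ℤ) : ℂ) * wy y + (((r : ℤ) * b + (i : ℤ) * d : ℤ) : ℂ)) /
        ((((r : ℤ) * q : ℤ) : ℂ) * wy y + (((r : ℤ) * d : ℤ) : ℂ)))
      (fun n => I (r * p + i * q) (r * q) n) (fun n hn => hI _ _ _ _ (d1 i) n hn 0)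
    have h3 : pr I (P i) (r * p + i * q) (r * q) =
        (P i).sum fun n c => (c : ℂ) * I (r * p + i * q) (r * q) n := by
      simp only [pr, zsmul_eq_mul]
    rw [h3]
    exact h2
  refine tendsto_nhds_unique (t1.congr' ?_) (tendsto_const_nhds (x := (0 : ℂ)))
  filter_upwards [eventually_gt_atTop 0] with y hy
  have hden := lin_ne hy (ne_of_det hdet).2
  have h4 := hK _ (frac_im hdet hy)
  rw [hK0] at h4
  rw [← h4]
  refine Finset.sum_congr rfl fun i _ => ?_
  congr 1
  push_cast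
  have e1 : ((r : ℂ) * q * wy y + (r : ℂ) * d) = r * ((q : ℂ) * wy y + d) := by ring
  rw [e1]
  field_simp
  ring

end Pool.Agent.Helper66.WK
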